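import Pool.Agent.Q71.SG.Main

/-!
# Superattracting skew germs have analytic normal forms
-/

namespace Pool.Agent.Results.MP_8db26a_an.AnalyticNormalForm

open Filter Topology Q71.SG

/-- **The negated form of Q1**: for all `d > c ≥ 2`, every germ `(z, w) ↦ (z^d, w^c + z h(z, w))`,
`h(0, 0) = 0`, is conjugated by a germ of biholomorphism to an analytic normal form. -/
theorem result : ∀ d c : ℕ, 2 ≤ c → c < d → ∀ h : ℂ × ℂ → ℂ, HolAt h 0 → h 0 = 0 →
    ∃ a : Fin c → ℂ → ℂ, (∀ j, AnalyticAt ℂ (a j) 0 ∧ a j 0 = 0) ∧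
      ∃ Φ : ℂ × ℂ → ℂ × ℂ, IsBihol Φ ∧
        ∀ᶠ p in 𝓝 0, Φ (skew d c h p) = normalForm d c a (Φ p) :=
  fun d c hc hdc h hh hh0 => exists_normalForm d c hc hdc h hh hh0

end Pool.Agent.Results.MP_8db26a_an.AnalyticNormalForm
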